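import Pool.Agent.Run7.h79.PG.Main

/-!
# Free decompositions of groups with the finite quotients of a noncompact lattice

Let `Γ` be a free product of `k` groups each of which is finite or infinite cyclic (`k` cyclic
groups: every noncocompact lattice of `PSL(2, R)`), and let `Λ` be a finitely generated residually
finite group with exactly the same finite quotients.  If `Λ` is a free product of `n` nontrivial
groups then `n ≤ k`, and if `n = k` then `Λ` is isomorphic to `Γ`, factor by factor.  More
precisely the factors of `Λ` without an infinite cyclic quotient are at most as many as the finite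
factors of `Γ`, and the others are at most as many as the infinite ones.
-/

set_option autoImplicit false

namespace Pool.Agent.Results.MP_305fdd_al.FreeDecompositions

/-- `G` is residually finite: every `g ≠ 1` survives in some homomorphism to a finite group. -/
def ResiduallyFinite (G : Type) [Group G] : Prop :=
  ∀ g : G, g ≠ 1 → ∃ (Q : Type) (_ : Group Q) (_ : Finite Q) (f : G →* Q), f g ≠ 1

/-- `G` and `H` have exactly the same finite quotients. -/
def SameFiniteQuotients (G H : Type) [Group G] [Group H] : Prop :=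
  ∀ (Q : Type) [Group Q] [Finite Q],
    (∃ f : G →* Q, Function.Surjective f) ↔ (∃ f : H →* Q, Function.Surjective f)

theorem result (κ : Type) [Finite κ] (C : κ → Type) [∀ i, Group (C i)]
    (hC : ∀ i, Finite (C i) ∨ Nonempty (C i ≃* Multiplicative ℤ))
    (Λ : Type) [Group Λ] (hfg : Group.FG Λ) (hrf : ResiduallyFinite Λ)
    (hsame : SameFiniteQuotients Λ (Monoid.CoprodI C))
    (ι : Type) [Finite ι] (A : ι → Type) [∀ j, Group (A j)] (hA : ∀ j, Nontrivial (A j))
    (e : Λ ≃* Monoid.CoprodI A) :
    Nat.card ι ≤ Nat.card κ ∧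
    Nat.card {j // ¬ ∃ s : A j →* Multiplicative ℤ, Function.Surjective s} ≤
      Nat.card {i // Finite (C i)} ∧
    Nat.card {j // ∃ s : A j →* Multiplicative ℤ, Function.Surjective s} ≤
      Nat.card {i // ¬ Finite (C i)} ∧
    (Nat.card ι = Nat.card κ → Nonempty (Λ ≃* Monoid.CoprodI C) ∧
      ∃ σ : ι ≃ κ, ∀ j, Nonempty (A j ≃* C (σ j))) := by
  have := Fintype.ofFinite κ
  have := Fintype.ofFinite ι
  have hfg' : Group.FG (Monoid.CoprodI A) :=
    Group.fg_of_surjective (f := e.toMonoidHom) e.surjective
  have hrf' : ∀ j, H79.PG.RF (A j) := by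
    intro j a ha
    have h1 : e.symm (Monoid.CoprodI.of a) ≠ 1 := by
      intro h
      apply ha
      apply Monoid.CoprodI.of_injective j
      rw [map_one]
      have h2 := congrArg e h
      rw [MulEquiv.apply_symm_apply, map_one] at h2
      exact h2
    obtain ⟨Q, i1, i2, f, hf⟩ := hrf _ h1
    exact ⟨Q, i1, i2, (f.comp e.symm.toMonoidHom).comp Monoid.CoprodI.of, hf⟩
  have hsame' : H79.PG.SameFQ (Monoid.CoprodI A) (Monoid.CoprodI C) := by
    intro Q _ _
    rw [← hsame Q]
    constructor
    · rintro ⟨f, hf⟩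
      exact ⟨f.comp e.toMonoidHom, hf.comp e.surjective⟩
    · rintro ⟨f, hf⟩
      exact ⟨f.comp e.symm.toMonoidHom, hf.comp e.symm.surjective⟩
  refine ⟨H79.PG.card_le hC hfg' hsame' hrf' hA, H79.PG.card_NZ_le hC hfg' hsame' hrf' hA,
    ?_, ?_⟩
  · refine le_trans (le_of_eq ?_) (H79.PG.card_notNZ_le hC hfg' hsame')
    exact Nat.card_congr (Equiv.subtypeEquivRight (fun j => by unfold H79.PG.NZ; rw [not_not]))
  intro hcard
  obtain ⟨σ, hσ⟩ := H79.PG.main hC hfg' hsame' hrf' hA hcard
  obtain ⟨v⟩ := H79.PG.coprod_congr σ (fun j => (hσ j).some)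
  exact ⟨⟨e.trans v⟩, σ, hσ⟩

end Pool.Agent.Results.MP_305fdd_al.FreeDecompositions
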