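import Pool.Agent.Run7.h79.ME.Graph4

/-!
# Graph products with the finite quotients of a noncompact lattice

Let `Γ` be a free product of `k` nontrivial cyclic groups, finite or infinite (every noncompact
lattice of `PSL(2, R)` is one), and let `Λ` be a finitely generated residually finite group with
exactly the same finite quotients.  Suppose that `Λ` is the graph product of nontrivial groups
`A v` over a finite graph.  Then the graph is a disjoint union of complete graphs, with at most
`k` components; a vertex whose group maps onto the integers is isolated; and `Λ` is isomorphic to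
`Γ` if there are exactly `k` components, or if every `A v` is finite or infinite cyclic.
-/

set_option autoImplicit false

namespace Pool.Agent.Results.MP_305fdd_al.GraphProducts

/-- `G` is residually finite: every `g ≠ 1` survives in some homomorphism to a finite group. -/
def ResiduallyFinite (G : Type) [Group G] : Prop :=
  ∀ g : G, g ≠ 1 → ∃ (Q : Type) (_ : Group Q) (_ : Finite Q) (f : G →* Q), f g ≠ 1

/-- `G` and `H` have exactly the same finite quotients. -/
def SameFiniteQuotients (G H : Type) [Group G] [Group H] : Prop :=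
  ∀ (Q : Type) [Group Q] [Finite Q],
    (∃ f : G →* Q, Function.Surjective f) ↔ (∃ f : H →* Q, Function.Surjective f)

/-- The graph product of the groups `A v` over the graph `E`: the free product of the `A v`
modulo the relations saying that `A u` and `A v` commute whenever `u` and `v` are adjacent. -/
abbrev GraphProduct {V : Type} (E : SimpleGraph V) (A : V → Type) [∀ v, Group (A v)] : Type :=
  Monoid.CoprodI A ⧸ Subgroup.normalClosure
    {z : Monoid.CoprodI A | ∃ (u v : V) (a : A u) (b : A v), E.Adj u v ∧
      z = (Monoid.CoprodI.of a : Monoid.CoprodI A) * Monoid.CoprodI.of b *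
        (Monoid.CoprodI.of a)⁻¹ * (Monoid.CoprodI.of b)⁻¹}

theorem result (κ : Type) [Finite κ] (C : κ → Type) [∀ i, Group (C i)]
    (hcyc : ∀ i, IsCyclic (C i)) (hnt : ∀ i, Nontrivial (C i))
    (Λ : Type) [Group Λ] (hfg : Group.FG Λ) (hrf : ResiduallyFinite Λ)
    (hsame : SameFiniteQuotients Λ (Monoid.CoprodI C))
    (V : Type) [Finite V] (E : SimpleGraph V) (A : V → Type) [∀ v, Group (A v)]
    (hA : ∀ v, Nontrivial (A v)) (e : Λ ≃* GraphProduct E A) :
    (∀ u v w, E.Adj u v → E.Adj v w → u ≠ w → E.Adj u w) ∧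
    Nat.card E.ConnectedComponent ≤ Nat.card κ ∧
    (Nat.card E.ConnectedComponent = Nat.card κ → Nonempty (Λ ≃* Monoid.CoprodI C)) ∧
    ((∀ v, Finite (A v) ∨ Nonempty (A v ≃* Multiplicative ℤ)) →
      Nonempty (Λ ≃* Monoid.CoprodI C)) ∧
    (∀ u v, E.Adj u v → ¬ ∃ s : A v →* Multiplicative ℤ, Function.Surjective s) ∧
    (∀ u v, E.Adj u v → ∀ (l : ℕ) (P S : Type) [Group P] [Finite P] [Group S] [Finite S]
      (f : A u →* P) (g : A v →* S) (a : A u) (b : A v), l.Prime → orderOf (f a) = l →
        orderOf (g b) ≠ l ^ 2) := by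
  have := Fintype.ofFinite κ
  have hC := fun i => H79.ME.cyc_cases (C i) (hcyc i)
  have hfg' : Group.FG (H79.ME.GP E A) :=
    Group.fg_of_surjective (f := e.toMonoidHom) e.surjective
  have hsame' : H79.PG.SameFQ (H79.ME.GP E A) (Monoid.CoprodI C) :=
    H79.ME.same_of_equiv e hsame
  have hrf' : ∀ v, H79.PG.RF (A v) := by
    intro v a ha
    obtain ⟨r, hr, -⟩ := H79.ME.exists_single (Γ := E) v (MonoidHom.id (A v))
    have h1 : e.symm (H79.ME.gof E v a) ≠ 1 := by
      intro h
      apply ha
      have h2 := congrArg e h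
      rw [MulEquiv.apply_symm_apply, map_one] at h2
      have h3 := hr a
      rw [h2, map_one] at h3
      exact h3.symm
    obtain ⟨Q, i1, i2, f, hf⟩ := hrf _ h1
    exact ⟨Q, i1, i2, (f.comp e.symm.toMonoidHom).comp (H79.ME.gof E v), hf⟩
  refine ⟨H79.ME.trans_adj hC hcyc hfg' hsame' hrf' hA,
    H79.ME.comp_card_le hcyc hfg' hsame' hrf' hA, ?_, ?_, ?_, ?_⟩
  · intro h
    obtain ⟨v⟩ := H79.ME.comp_card_eq hcyc hfg' hsame' hrf' hA h
    exact ⟨e.trans v⟩
  · intro h
    obtain ⟨v⟩ := H79.ME.finite_or_int hcyc hfg' hsame' hrf' hA hnt h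
    exact ⟨e.trans v⟩
  · rintro u v huv ⟨s, hs⟩
    exact H79.ME.no_int hC hcyc hfg' hsame' hrf' hA u v huv s hs
  · intro u v huv l P S _ _ _ _ f g a b hl ha hb
    exact H79.ME.no_square hC hcyc hfg' hsame' u v huv l hl f g a b ha (hb.trans (pow_two l))

end Pool.Agent.Results.MP_305fdd_al.GraphProducts
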