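import Pool.Agent.Run7.h79.ME.Final

/-!
# Groups with more than one end and the finite quotients of the modular group

Let `p ≠ q` be primes and let `Λ` be a finitely generated residually finite group with exactly the
same finite quotients as `Z/p * Z/q` (for `{p, q} = {2, 3}` the modular group `PSL(2, Z)`, for
`p = 2` the Hecke group of index `q`).  If `Λ` splits over a finite group, that is if it has more
than one end, then `Λ` is isomorphic to `Z/p * Z/q`.
-/

set_option autoImplicit false

namespace Pool.Agent.Results.MP_305fdd_al.MoreThanOneEnd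

/-- `G` is residually finite: every `g ≠ 1` survives in some homomorphism to a finite group. -/
def ResiduallyFinite (G : Type) [Group G] : Prop :=
  ∀ g : G, g ≠ 1 → ∃ (Q : Type) (_ : Group Q) (_ : Finite Q) (f : G →* Q), f g ≠ 1

/-- `G` and `H` have exactly the same finite quotients. -/
def SameFiniteQuotients (G H : Type) [Group G] [Group H] : Prop :=
  ∀ (Q : Type) [Group Q] [Finite Q],
    (∃ f : G →* Q, Function.Surjective f) ↔ (∃ f : H →* Q, Function.Surjective f)

/-- `G` splits over a finite group: it is an amalgamated product of two groups over a finite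
group `K` which is embedded in both of them and different from both, or an HNN extension of some
group over a finite subgroup `K`.  By a theorem of Stallings the finitely generated groups of this
kind are the finitely generated groups with more than one end. -/
def SplitsOverFinite (G : Type) [Group G] : Prop :=
  (∃ (K : Type) (_ : Group K) (_ : Finite K) (A : Bool → Type) (_ : ∀ i, Group (A i))
    (φ : ∀ i, K →* A i),
    (∀ i, Function.Injective (φ i) ∧ ¬ Function.Surjective (φ i)) ∧
      Nonempty (G ≃* Monoid.PushoutI φ)) ∨
  (∃ (A : Type) (_ : Group A) (K L : Subgroup A) (_ : Finite K) (φ : K ≃* L),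
    Nonempty (G ≃* HNNExtension A K L φ))

theorem result (p q : ℕ) (hp : p.Prime) (hq : q.Prime) (hpq : p ≠ q)
    (Λ : Type) [Group Λ] (hfg : Group.FG Λ) (hrf : ResiduallyFinite Λ)
    (hsame : SameFiniteQuotients Λ
      (Monoid.Coprod (Multiplicative (ZMod p)) (Multiplicative (ZMod q))))
    (hsplit : SplitsOverFinite Λ) :
    Nonempty (Λ ≃* Monoid.Coprod (Multiplicative (ZMod p)) (Multiplicative (ZMod q))) := by
  obtain ⟨c⟩ := H79.ME.coprod_equiv p q
  have hn : ∀ b, (H79.ME.nn p q b).Prime := by
    intro b
    cases b
    · exact hq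
    · exact hp
  rcases hsplit with ⟨K, _, _, A, _, φ, hφ, ⟨e⟩⟩ | ⟨A, _, K, L, _, φ, ⟨e⟩⟩
  · obtain ⟨v⟩ := H79.ME.amalgam_case hn hpq φ hφ (H79.ME.fg_equiv e hfg)
      (H79.ME.same_equiv e c hsame) (H79.ME.rf_equiv e hrf)
    exact ⟨(e.trans v).trans c.symm⟩
  · exfalso
    obtain ⟨s, hs⟩ := H79.ME.hnn_int K L φ
    exact H79.ME.no_int hn (H79.ME.same_equiv (MulEquiv.refl Λ) c hsame)
      (s.comp e.toMonoidHom) (hs.comp e.surjective)

end Pool.Agent.Results.MP_305fdd_al.MoreThanOneEnd
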